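import Pool.Agent.Helper83.EINU.Total
import Pool.Agent.Helper83.EIN.Main

/-!
# Project EIN (MP_06d934_gt), uniform version: the main theorem
-/

set_option autoImplicit false

namespace Pool.Agent.Helper83.EINU

open Finset Pool.Agent.Helper83.EIN

/-- **Twenty Einstein metrics if one block is much larger than the others**, whose ratios are
bounded. -/
theorem main (R : ℕ) : ∃ C : ℕ, ∀ n : Fin 4 → ℕ, (∀ i, 0 < n i) →
    (∀ i j, i ≠ 3 → j ≠ 3 → n i ≤ R * n j) → C * (n 0 + n 1 + n 2) ≤ n 3 →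
      {x : Fin 4 → Fin 4 → ℝ | IsMetric x ∧ IsEinstein n (1 / 2) x}.ncard = 20 := by
  obtain ⟨ε, hε, H⟩ := uniform ti (δ := 1 / (1 + 2 * R)) (by positivity)
  obtain ⟨C, hC⟩ := exists_nat_gt (1 / ε)
  refine ⟨C, fun n hn hR hl ↦ ?_⟩
  obtain ⟨a, b, c, t, ha, hb, hc, habc, ht, ht1, ea, eb, ec, et, e⟩ := sizes n hn
  have e1 : {x : Fin 4 → Fin 4 → ℝ | IsMetric x ∧ IsEinstein n (1 / 2) x} =
      {x : Fin 4 → Fin 4 → ℝ | IsMetric x ∧ NormEin ![t * a, t * b, t * c, 1 - t] x} := by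
    ext x
    constructor
    · rintro ⟨h1, h2⟩
      refine ⟨h1, ?_⟩
      rw [← e]
      exact (ein_iff _ h1).1 h2
    · rintro ⟨h1, h2⟩
      refine ⟨h1, (ein_iff _ h1).2 ?_⟩
      rw [e]
      exact h2
  rw [e1, ncard_eq]
  have p0 : (0 : ℝ) < n 0 := by exact_mod_cast hn 0
  have p1 : (0 : ℝ) < n 1 := by exact_mod_cast hn 1
  have p2 : (0 : ℝ) < n 2 := by exact_mod_cast hn 2
  have p3 : (0 : ℝ) < n 3 := by exact_mod_cast hn 3
  have hR' : ∀ i j : Fin 4, i ≠ 3 → j ≠ 3 → (n i : ℝ) ≤ R * n j := by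
    intro i j hi hj
    exact_mod_cast hR i j hi hj
  have r01 := hR' 0 1 (by decide) (by decide)
  have r02 := hR' 0 2 (by decide) (by decide)
  have r10 := hR' 1 0 (by decide) (by decide)
  have r12 := hR' 1 2 (by decide) (by decide)
  have r20 := hR' 2 0 (by decide) (by decide)
  have r21 := hR' 2 1 (by decide) (by decide)
  have hR0 : (0 : ℝ) ≤ R := Nat.cast_nonneg R
  have hl' : (C : ℝ) * ((n 0 : ℝ) + n 1 + n 2) ≤ n 3 := by exact_mod_cast hl
  refine H a b c t ?_ ?_ ?_ habc ht ?_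
  · rw [ea, div_le_div_iff₀ (by positivity) (by positivity)]
    nlinarith
  · rw [eb, div_le_div_iff₀ (by positivity) (by positivity)]
    nlinarith
  · rw [ec, div_le_div_iff₀ (by positivity) (by positivity)]
    nlinarith
  · rw [et, div_lt_iff₀ (by positivity)]
    rw [div_lt_iff₀ hε] at hC
    nlinarith

end Pool.Agent.Helper83.EINU
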