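import Pool.Agent.Helper83.EINU.CountP
import Pool.Agent.Helper83.EIN.Asm

/-!
# Project EIN (MP_06d934_gt), uniform version: the solutions with all `x₁₂, x₁₃, x₂₃` large
-/

set_option autoImplicit false

namespace Pool.Agent.Helper83.EINU

open Finset Topology Pool.Agent.Helper83.EIN

theorem Near.pos {a₀ b₀ c₀ ε a b c t : ℝ} (h : Near a₀ b₀ c₀ ε a b c t) (ha : ε ≤ a₀)
    (hb : ε ≤ b₀) (hc : ε ≤ c₀) : 0 < a ∧ 0 < b ∧ 0 < c := by
  have h1 := abs_lt.1 h.ha
  have h2 := abs_lt.1 h.hb
  have h3 := abs_lt.1 h.hc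
  exact ⟨by linarith [h1.1], by linarith [h2.1], by linarith [h3.1]⟩

theorem FA_cdP : ContDiff ℝ 1 (fun z : (ℝ × ℝ × ℝ × ℝ) × (Fin 6 → ℝ) ↦
    FA z.1.1 z.1.2.1 z.1.2.2.1 z.1.2.2.2 z.2) := by
  unfold FA
  rw [contDiff_pi]
  intro i
  fin_cases i <;> simp <;> fun_prop

/-- **G_A**: exactly one solution with all three large. -/
theorem gA (hTI : TI) {a₀ b₀ c₀ : ℝ} (ha : 0 < a₀) (hb : 0 < b₀) (hc : 0 < c₀) :
    ∃ ε > 0, ∀ a b c t, Near a₀ b₀ c₀ ε a b c t →
      {v : Fin 6 → ℝ | Sol a b c t v ∧ 1 ≤ v 0 ∧ 1 ≤ v 1 ∧ 1 ≤ v 2}.ncard = 1 := by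
  have hK : IsCompact (Set.Icc (![1, 1, 1, 1/2, 1/2, 1/2] : Fin 6 → ℝ) ![2, 2, 2, 2, 2, 2]) :=
    isCompact_Icc
  refine count_set FA FA_cdP a₀ b₀ c₀ _ hK {![2, 2, 2, 1, 1, 1]} ?_ ?_ ?_
    (Set.pi Set.univ fun i ↦ Set.Ioi ((![1, 1, 1, 1/2, 1/2, 1/2] : Fin 6 → ℝ) i)) ?_
    (fun a b c t ↦ {v : Fin 6 → ℝ | Sol a b c t v ∧ 1 ≤ v 0 ∧ 1 ≤ v 1 ∧ 1 ≤ v 2})
    (min (min (1/2) a₀) (min b₀ c₀)) (by positivity) ?_ ?_
  · intro u hu h0
    rw [Set.mem_Icc, Pi.le_def, Pi.le_def] at hu
    have l0 := hu.1 0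
    have l1 := hu.1 1
    have l2 := hu.1 2
    have l3 := hu.1 3
    have l4 := hu.1 4
    have l5 := hu.1 5
    simp at l0 l1 l2 l3 l4 l5
    have q0 : 0 < u 0 := by linarith
    have q1 : 0 < u 1 := by linarith
    have q2 : 0 < u 2 := by linarith
    have q3 : 0 < u 3 := by linarith
    have q4 : 0 < u 4 := by linarith
    have q5 : 0 < u 5 := by linarith
    have h0' := congrFun h0 0
    have h1 := congrFun h0 1
    have h2 := congrFun h0 2
    have h3 := congrFun h0 3
    have h4 := congrFun h0 4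
    have h5 := congrFun h0 5
    simp only [FA] at h0' h1 h2 h3 h4 h5
    simp at h0' h1 h2 h3 h4 h5
    have a3 : u 3 = 1 := by
      rcases h3 with h | h
      · exfalso
        rcases h with ((h | h) | h) | h <;> linarith
      · linarith
    have a4 : u 4 = 1 := by
      rcases h4 with h | h
      · exfalso
        rcases h with ((h | h) | h) | h <;> linarith
      · linarith
    have a5 : u 5 = 1 := by
      rcases h5 with h | h
      · exfalso
        rcases h with ((h | h) | h) | h <;> linarith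
      · linarith
    rw [a3, a4] at h0'
    rw [a3, a5] at h1
    rw [a4, a5] at h2
    have a0 : u 0 = 2 := by
      have : (u 1 * u 2 * u 0) * (2 - u 0) = 0 := by linear_combination h0'
      have := (mul_eq_zero.1 this).resolve_left (by positivity)
      linarith
    have a1 : u 1 = 2 := by
      have : (u 0 * u 2 * u 1) * (2 - u 1) = 0 := by linear_combination h1
      have := (mul_eq_zero.1 this).resolve_left (by positivity)
      linarith
    have a2 : u 2 = 2 := by
      have : (u 0 * u 1 * u 2) * (2 - u 2) = 0 := by linear_combination h2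
      have := (mul_eq_zero.1 this).resolve_left (by positivity)
      linarith
    rw [mem_singleton]
    funext i
    fin_cases i
    · exact a0
    · exact a1
    · exact a2
    · exact a3
    · exact a4
    · exact a5
  · intro z hz
    rw [mem_singleton] at hz
    subst hz
    funext i
    fin_cases i <;> simp [FA] <;> norm_num
  · intro z hz v hv
    rw [mem_singleton] at hz
    subst hz
    exact FA_nondeg a₀ b₀ c₀ v hv
  · intro z hz
    rw [mem_singleton] at hz
    subst hz
    refine (isOpen_set_pi Set.finite_univ fun i _ ↦ isOpen_Ioi).mem_nhds ?_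
    intro i _
    fin_cases i <;> simp <;> norm_num
  · rintro a b c t hN u ⟨hu, l0, l1, l2⟩
    obtain ⟨pa, pb, pc⟩ := hN.pos ((min_le_left _ _).trans (min_le_right _ _))
      ((min_le_right _ _).trans (min_le_left _ _)) ((min_le_right _ _).trans (min_le_right _ _))
    have ht := hN.t0
    have ht2 : t < 1 / 2 := hN.t1.trans_le ((min_le_left _ _).trans (min_le_left _ _))
    have B := bd hTI pa pb pc hN.s ht (by linarith) hu
    refine ⟨⟨?_, ?_⟩, (sol_iff_FA hu.pos).1 hu⟩
    · intro i
      fin_cases i <;> simp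
      · exact l0
      · exact l1
      · exact l2
      · linarith [B.l3]
      · linarith [B.l4]
      · linarith [B.l5]
    · intro i
      fin_cases i <;> simp
      · exact B.u0
      · exact B.u1
      · exact B.u2
      · linarith [B.u3]
      · linarith [B.u4]
      · linarith [B.u5]
  · intro a b c t hN u hu h0
    have l0 := hu 0 trivial
    have l1 := hu 1 trivial
    have l2 := hu 2 trivial
    have l3 := hu 3 trivial
    have l4 := hu 4 trivial
    have l5 := hu 5 trivial
    simp at l0 l1 l2 l3 l4 l5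
    refine ⟨(sol_iff_FA ?_).2 h0, l0.le, l1.le, l2.le⟩
    intro i
    fin_cases i <;> simp <;> linarith

end Pool.Agent.Helper83.EINU
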