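import Pool.Agent.Helper83.EINU.A

/-!
# Project EIN (MP_06d934_gt), uniform version: the solutions with `x₁₂` small, `x₁₃, x₂₃` large
-/

set_option autoImplicit false

namespace Pool.Agent.Helper83.EINU

open Finset Topology Pool.Agent.Helper83.EIN

theorem FB_cdP : ContDiff ℝ 1 (fun z : (ℝ × ℝ × ℝ × ℝ) × (Fin 6 → ℝ) ↦
    FB z.1.1 z.1.2.1 z.1.2.2.1 z.1.2.2.2 z.2) := by
  unfold FB
  rw [contDiff_pi]
  intro i
  fin_cases i <;> simp <;> fun_prop

/-- **G_B**: exactly three solutions with `x₁₂` small, `x₁₃, x₂₃` large. -/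
theorem gB (hTI : TI) {a b c : ℝ} (ha : 0 < a) (hb : 0 < b) (hc : 0 < c) (habc : a + b + c = 1) :
    ∃ ε > 0, ∀ a' b' c' t, Near a b c ε a' b' c' t →
      {v : Fin 6 → ℝ | Sol a' b' c' t v ∧ v 0 < 1 ∧ 1 ≤ v 1 ∧ 1 ≤ v 2}.ncard = 3 := by
  classical
  have hab : 0 < a + b := by linarith
  have hK : IsCompact (Set.Icc (![(a + b) / 2, -6, -6, 1/2, 1/2, 1] : Fin 6 → ℝ) ![6, 6, 6, 2, 2, 2]) :=
    isCompact_Icc
  have hZ3 : ({zB a b (a + b), zB a b (-(a + b)), zB a b (a - b)} :
      Finset (Fin 6 → ℝ)).card = 3 := by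
    rw [card_eq_three]
    refine ⟨_, _, _, ?_, ?_, ?_, rfl⟩
    · intro h
      have := congrFun h 1
      simp [zB] at this
      linarith
    · intro h
      have := congrFun h 1
      simp [zB] at this
      linarith
    · intro h
      have := congrFun h 1
      simp [zB] at this
      linarith
  have hmemZ : ∀ z ∈ ({zB a b (a + b), zB a b (-(a + b)), zB a b (a - b)} :
      Finset (Fin 6 → ℝ)), ∃ d, z = zB a b d ∧ |d| ≤ a + b ∧
        ((a + b) ^ 2 - d ^ 2) * (d - (a - b)) = 0 ∧
        (a + b) ^ 2 - d ^ 2 - 2 * d * (d - (a - b)) ≠ 0 := by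
    intro z hz
    rw [mem_insert, mem_insert, mem_singleton] at hz
    rcases hz with rfl | rfl | rfl
    · refine ⟨a + b, rfl, ?_, by ring, ?_⟩
      · rw [abs_of_pos hab]
      · have : (a + b) ^ 2 - (a + b) ^ 2 - 2 * (a + b) * (a + b - (a - b)) = -(4 * (a + b) * b) := by
          ring
        rw [this]
        have : 0 < 4 * (a + b) * b := by positivity
        linarith
    · refine ⟨-(a + b), rfl, ?_, by ring, ?_⟩
      · rw [abs_neg, abs_of_pos hab]
      · have : (a + b) ^ 2 - (-(a + b)) ^ 2 - 2 * (-(a + b)) * (-(a + b) - (a - b)) =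
            -(4 * (a + b) * a) := by ring
        rw [this]
        have : 0 < 4 * (a + b) * a := by positivity
        linarith
    · refine ⟨a - b, rfl, ?_, by ring, ?_⟩
      · rw [abs_le]
        constructor <;> linarith
      · have : (a + b) ^ 2 - (a - b) ^ 2 - 2 * (a - b) * (a - b - (a - b)) = 4 * a * b := by ring
        rw [this]
        positivity
  suffices hcount : ∃ ε > 0, ∀ a' b' c' t, Near a b c ε a' b' c' t →
      {u | Sol a' b' c' t (psB t u) ∧ psB t u 0 < 1 ∧ 1 ≤ psB t u 1 ∧ 1 ≤ psB t u 2}.ncard =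
        ({zB a b (a + b), zB a b (-(a + b)), zB a b (a - b)} : Finset (Fin 6 → ℝ)).card by
    obtain ⟨ε, hε, hcount⟩ := hcount
    refine ⟨ε, hε, fun a' b' c' t hN ↦ ?_⟩
    have ht0 := hN.t0
    have h1 : {v : Fin 6 → ℝ | Sol a' b' c' t v ∧ v 0 < 1 ∧ 1 ≤ v 1 ∧ 1 ≤ v 2} =
        psB t '' {u | Sol a' b' c' t (psB t u) ∧ psB t u 0 < 1 ∧ 1 ≤ psB t u 1 ∧ 1 ≤ psB t u 2} := by
      ext v
      constructor
      · intro hv
        refine ⟨_, ?_, psB_surj ht0 v⟩
        rw [Set.mem_ofPred_eq, psB_surj ht0 v]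
        exact hv
      · rintro ⟨u, hu, rfl⟩
        exact hu
    rw [h1, Set.ncard_image_of_injective _ (psB_inj ht0), hcount a' b' c' t hN, hZ3]
  refine count_set FB FB_cdP a b c _ hK
    {zB a b (a + b), zB a b (-(a + b)), zB a b (a - b)} ?_ ?_ ?_
    (Set.pi Set.univ fun i ↦ Set.Ioo ((![0, -7, -7, 1/2, 1/2, 3/2] : Fin 6 → ℝ) i)
      ((![7, 7, 7, 2, 2, 3] : Fin 6 → ℝ) i)) ?_
    (fun a' b' c' t ↦ {u | Sol a' b' c' t (psB t u) ∧ psB t u 0 < 1 ∧ 1 ≤ psB t u 1 ∧
      1 ≤ psB t u 2}) (min (min (1/100) (a / 4)) (min (b / 4) (c / 4))) (by positivity) ?_ ?_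
  · intro u hu h0
    rw [Set.mem_Icc, Pi.le_def, Pi.le_def] at hu
    have l0 := hu.1 0
    have l3 := hu.1 3
    have l4 := hu.1 4
    have l5 := hu.1 5
    simp at l0 l3 l4 l5
    have q0 : 0 < u 0 := by linarith
    have q3 : 0 < u 3 := by linarith
    have q4 : 0 < u 4 := by linarith
    have q5 : 0 < u 5 := by linarith
    have f0 := congrFun h0 0
    have f1 := congrFun h0 1
    have f2 := congrFun h0 2
    have f3 := congrFun h0 3
    have f4 := congrFun h0 4
    have f5 := congrFun h0 5
    simp only [FB] at f0 f1 f2 f3 f4 f5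
    simp only [Matrix.cons_val, zero_mul, add_zero, sub_zero, mul_zero, Pi.zero_apply] at f0 f1 f2 f3 f4 f5
    have a3 : u 3 = 1 := by
      have h : (2 * u 0 * u 3 * u 5 * u 4) * (u 3 - 1) = 0 := by linear_combination f3
      have := (mul_eq_zero.1 h).resolve_left (by positivity)
      linarith
    have a4 : u 4 = 1 := by
      have h : (2 * u 5 * u 3 * u 5 * u 3) * (u 4 - 1) = 0 := by linear_combination f4
      have := (mul_eq_zero.1 h).resolve_left (by positivity)
      linarith
    have a0 : u 0 = a + b := by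
      have h : (2 * u 3 * u 3 * u 5 * u 5) * (u 0 - a - b) = 0 := by linear_combination f0
      have := (mul_eq_zero.1 h).resolve_left (by positivity)
      linarith
    have a5 : u 5 = 2 := by
      rw [a3, a4] at f5
      have h : (u 0 * u 5 * u 5) * (2 - u 5) = 0 := by linear_combination f5
      have := (mul_eq_zero.1 h).resolve_left (by positivity)
      linarith
    have a2 : u 2 = u 1 := by
      rw [a3, a4, a5, a0] at f2
      have h : (a + b) * (u 2 - u 1) = 0 := by linear_combination -f2 / 16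
      have := (mul_eq_zero.1 h).resolve_left hab.ne'
      linarith
    have a1 : ((a + b) ^ 2 - u 1 ^ 2) * (u 1 - (a - b)) = 0 := by
      rw [a3, a4, a5, a0, a2] at f1
      linear_combination f1 / 4
    have hu' : u = zB a b (u 1) := by
      funext i
      fin_cases i
      · exact a0
      · rfl
      · exact a2
      · exact a3
      · exact a4
      · exact a5
    rw [mem_insert, mem_insert, mem_singleton]
    rcases mul_eq_zero.1 a1 with h | h
    · have h' : (a + b - u 1) * (a + b + u 1) = 0 := by linear_combination h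
      rcases mul_eq_zero.1 h' with h' | h'
      · left
        rw [hu']
        congr 1
        linarith
      · right
        left
        rw [hu']
        congr 1
        linarith
    · right
      right
      rw [hu']
      congr 1
      linarith
  · intro z hz
    obtain ⟨d, rfl, hd1, hd2, hd3⟩ := hmemZ z hz
    funext i
    fin_cases i
    · simp [FB, zB]
    · simp [FB, zB]; linear_combination 4 * hd2
    · simp [FB, zB]; ring
    · simp [FB, zB]
    · simp [FB, zB]
    · simp [FB, zB]; ring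
  · intro z hz v hv
    obtain ⟨d, rfl, hd1, hd2, hd3⟩ := hmemZ z hz
    exact FB_nondeg hab hd3 v hv
  · intro z hz
    obtain ⟨d, rfl, hd1, hd2, hd3⟩ := hmemZ z hz
    rw [abs_le] at hd1
    refine (isOpen_set_pi Set.finite_univ fun i _ ↦ isOpen_Ioo).mem_nhds ?_
    intro i _
    fin_cases i <;> simp [zB] <;> (try norm_num) <;> (try constructor) <;> linarith
  · rintro a' b' c' t hN u ⟨hu, l0, l1, l2⟩
    have ht2 : t < 1 / 100 := hN.t1.trans_le ((min_le_left _ _).trans (min_le_left _ _))
    have ht := hN.t0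
    have qa := abs_lt.1 (hN.ha.trans_le ((min_le_left _ _).trans (min_le_right _ _)))
    have qb := abs_lt.1 (hN.hb.trans_le ((min_le_right _ _).trans (min_le_left _ _)))
    have qc := abs_lt.1 (hN.hc.trans_le ((min_le_right _ _).trans (min_le_right _ _)))
    have ha' : 0 < a' := by linarith [qa.1]
    have hb' : 0 < b' := by linarith [qb.1]
    have hc' : 0 < c' := by linarith [qc.1]
    have hab' : (a + b) / 2 ≤ a' + b' := by linarith [qa.1, qb.1]
    have habc' := hN.s
    have B := bd hTI ha' hb' hc' habc' ht (by linarith) hu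
    have hsm := small0 hc' (by linarith) ht (by linarith) hu B l0
    obtain ⟨s1, s2, s3⟩ := B.t1
    obtain ⟨s4, s5, s6⟩ := B.t2
    have b0 := B.l0
    have b3 := B.l3
    have b4 := B.l4
    have b5 := B.l5
    have c2 := B.u2
    have c3 := B.u3
    have c4 := B.u4
    have c5 := B.u5
    simp [psB] at hsm s1 s2 s3 s4 s5 s6 b0 b3 b4 b5 c2 c3 c4 c5 l2
    have w0 : a' + b' ≤ u 0 := by
      by_contra hcon
      have := mul_lt_mul_of_pos_left (not_le.1 hcon) ht
      linarith
    have w0' : u 0 ≤ 6 := by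
      by_contra hcon
      have := mul_lt_mul_of_pos_left (not_le.1 hcon) ht
      linarith
    have w1 : u 1 ≤ u 0 := by
      by_contra hcon
      have := mul_lt_mul_of_pos_left (not_le.1 hcon) ht
      linarith
    have w1' : -u 0 ≤ u 1 := by
      by_contra hcon
      have := mul_lt_mul_of_pos_left (not_le.1 hcon) ht
      linarith
    have w2 : u 2 ≤ u 0 := by
      by_contra hcon
      have := mul_lt_mul_of_pos_left (not_le.1 hcon) ht
      linarith
    have w2' : -u 0 ≤ u 2 := by
      by_contra hcon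
      have := mul_lt_mul_of_pos_left (not_le.1 hcon) ht
      linarith
    refine ⟨⟨?_, ?_⟩, (sol_iff_FB habc' ht hu.pos).1 hu⟩
    · intro i
      fin_cases i <;> simp <;> linarith
    · intro i
      fin_cases i <;> simp <;> linarith
  · intro a' b' c' t hN u hu h0
    have ht2 : t < 1 / 100 := hN.t1.trans_le ((min_le_left _ _).trans (min_le_left _ _))
    have ht := hN.t0
    have habc' := hN.s
    obtain ⟨l0, r0⟩ := hu 0 trivial
    obtain ⟨l1, r1⟩ := hu 1 trivial
    obtain ⟨l2, r2⟩ := hu 2 trivial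
    obtain ⟨l3, r3⟩ := hu 3 trivial
    obtain ⟨l4, r4⟩ := hu 4 trivial
    obtain ⟨l5, r5⟩ := hu 5 trivial
    simp at l0 l1 l2 l3 l4 l5 r0 r1 r2 r3 r4 r5
    have k0 : t * u 0 < 1 := by nlinarith
    have k0' : 0 < t * u 0 := mul_pos ht l0
    have k1 : -(7 / 100) ≤ t * u 1 := by nlinarith
    have k2 : -(7 / 100) ≤ t * u 2 := by nlinarith
    refine ⟨(sol_iff_FB habc' ht ?_).2 h0, ?_, ?_, ?_⟩
    · intro i
      fin_cases i <;> simp [psB] <;> linarith
    · simp [psB]
      exact k0
    · simp [psB]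
      linarith
    · simp [psB]
      linarith

end Pool.Agent.Helper83.EINU
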