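import Mathlib

/-!
# Project EIN (MP_06d934_gt): counting zeros near nondegenerate limit zeros, with parameters
-/

set_option autoImplicit false

namespace Pool.Agent.Helper83.EINU

open Filter Topology Set

section

variable {T : Type*} [NormedAddCommGroup T] [NormedSpace ℝ T] [FiniteDimensional ℝ T]
variable {E : Type*} [NormedAddCommGroup E] [NormedSpace ℝ E] [FiniteDimensional ℝ E]

/-- The local statement: near a nondegenerate zero of `F τ₀` there is exactly one zero of `F τ`. -/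
theorem local_zero (F : T → E → E) (hF : ContDiff ℝ 1 (fun z : T × E ↦ F z.1 z.2)) (τ₀ : T) (z : E)
    (hz : F τ₀ z = 0) (hD : ∀ v : E, HasDerivAt (fun s : ℝ ↦ F τ₀ (z + s • v)) 0 0 → v = 0) :
    ∃ g : T → E, Tendsto g (𝓝 τ₀) (𝓝 z) ∧ (∀ᶠ t in 𝓝 τ₀, F t (g t) = 0) ∧
      ∀ᶠ p : T × E in 𝓝 (τ₀, z), F p.1 p.2 = 0 → p.2 = g p.1 := by
  have : CompleteSpace E := FiniteDimensional.complete ℝ E
  have : CompleteSpace T := FiniteDimensional.complete ℝ T
  set G : T × E → E := fun p ↦ F p.1 p.2 with hG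
  set Φ : T × E → T × E := fun p ↦ (p.1, F p.1 p.2) with hΦ
  have hΦd : ContDiff ℝ 1 Φ := contDiff_fst.prodMk hF
  have hst : HasStrictFDerivAt Φ (fderiv ℝ Φ (τ₀, z)) (τ₀, z) :=
    hΦd.contDiffAt.hasStrictFDerivAt one_ne_zero
  set A := fderiv ℝ Φ (τ₀, z) with hA
  have hA1 : A = (ContinuousLinearMap.fst ℝ T E).prod (fderiv ℝ G (τ₀, z)) := by
    refine HasFDerivAt.fderiv ?_
    exact hasFDerivAt_fst.prodMk (hF.differentiable one_ne_zero _).hasFDerivAt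
  have hinj : Function.Injective A := by
    rw [injective_iff_map_eq_zero]
    rintro ⟨τ, v⟩ h
    rw [hA1] at h
    have h1 : τ = 0 := congrArg Prod.fst h
    have h2 : fderiv ℝ G (τ₀, z) (τ, v) = 0 := congrArg Prod.snd h
    subst h1
    have h3 : HasDerivAt (fun s : ℝ ↦ F τ₀ (z + s • v)) 0 0 := by
      have h4 : HasDerivAt (fun s : ℝ ↦ (τ₀, z + s • v)) ((0 : T), v) 0 := by
        refine (hasDerivAt_const _ _).prodMk ?_
        have := ((hasDerivAt_id (0 : ℝ)).smul_const v).const_add z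
        simpa using this
      have h5 : HasFDerivAt G (fderiv ℝ G (τ₀, z)) (τ₀, z + (0 : ℝ) • v) := by
        rw [zero_smul, add_zero]
        exact (hF.differentiable one_ne_zero _).hasFDerivAt
      have h6 := h5.comp_hasDerivAt (0 : ℝ) h4
      rw [h2] at h6
      exact h6
    rw [hD v h3]
    rfl
  have hker : A.ker = ⊥ := LinearMap.ker_eq_bot.2 hinj
  have hrange : A.range = ⊤ := LinearMap.range_eq_top.2 (LinearMap.injective_iff_surjective.1 hinj)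
  set e' := ContinuousLinearEquiv.ofBijective A hker hrange with he'
  have hst' : HasStrictFDerivAt Φ (e' : (T × E) →L[ℝ] (T × E)) (τ₀, z) := by
    have : (e' : (T × E) →L[ℝ] (T × E)) = A := ContinuousLinearMap.ext fun x ↦ rfl
    rw [this]
    exact hst
  set e := hst'.toOpenPartialHomeomorph Φ with he
  have hmem : (τ₀, z) ∈ e.source := hst'.mem_toOpenPartialHomeomorph_source
  have hcoe : (e : T × E → T × E) = Φ := rfl
  have hval : e (τ₀, z) = (τ₀, (0 : E)) := by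
    rw [hcoe, hΦ]
    simp [hz]
  have htar : (τ₀, (0 : E)) ∈ e.target := by
    rw [← hval]
    exact e.map_source hmem
  refine ⟨fun t ↦ (e.symm (t, 0)).2, ?_, ?_, ?_⟩
  · have h1 : ContinuousAt e.symm (τ₀, (0 : E)) := e.continuousAt_symm htar
    have h2 : Tendsto (fun t : T ↦ (t, (0 : E))) (𝓝 τ₀) (𝓝 (τ₀, (0 : E))) :=
      (Continuous.prodMk_left (0 : E)).tendsto' _ _ rfl
    have h3 := (continuous_snd.tendsto _).comp (h1.tendsto.comp h2)
    have h4 : e.symm (τ₀, (0 : E)) = (τ₀, z) := by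
      rw [← hval, e.left_inv hmem]
    rw [h4] at h3
    exact h3
  · have h2 : Tendsto (fun t : T ↦ (t, (0 : E))) (𝓝 τ₀) (𝓝 (τ₀, (0 : E))) :=
      (Continuous.prodMk_left (0 : E)).tendsto' _ _ rfl
    filter_upwards [h2 (e.open_target.mem_nhds htar)] with t ht
    have h5 : e (e.symm (t, 0)) = (t, 0) := e.right_inv ht
    rw [hcoe, hΦ] at h5
    have h6 := congrArg Prod.fst h5
    have h7 := congrArg Prod.snd h5
    simp only at h6 h7
    rw [h6] at h7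
    exact h7
  · filter_upwards [e.open_source.mem_nhds hmem] with p hp h0
    have h5 : e p = (p.1, 0) := by
      rw [hcoe, hΦ]
      simp [h0]
    have h6 := e.left_inv hp
    rw [h5] at h6
    exact (congrArg Prod.snd h6).symm

/-- **Counting lemma.** Let `Z` be the finite set of the zeros of `F τ₀` in the compact set `K`, all
nondegenerate. For `τ` near `τ₀` there are `|Z|` zeros of `F τ`, as close to `Z` as we like, such that
every zero of `F τ` in `K` is one of them. -/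
theorem count (F : T → E → E) (hF : ContDiff ℝ 1 (fun z : T × E ↦ F z.1 z.2)) (τ₀ : T) (K : Set E)
    (hK : IsCompact K) (Z : Finset E) (hKZ : ∀ u ∈ K, F τ₀ u = 0 → u ∈ Z)
    (hZ : ∀ z ∈ Z, F τ₀ z = 0)
    (hD : ∀ z ∈ Z, ∀ v : E, HasDerivAt (fun s : ℝ ↦ F τ₀ (z + s • v)) 0 0 → v = 0)
    (U : Set E) (hU : ∀ z ∈ Z, U ∈ 𝓝 z) :
    ∀ᶠ t in 𝓝 τ₀, ∃ Zt : Finset E, Zt.card = Z.card ∧
      (∀ u ∈ Zt, u ∈ U ∧ F t u = 0) ∧ ∀ u ∈ K, F t u = 0 → u ∈ Zt := by
  classical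
  have hloc : ∀ z : E, ∃ g : T → E, z ∈ Z → (Tendsto g (𝓝 τ₀) (𝓝 z) ∧
      (∀ᶠ t in 𝓝 τ₀, F t (g t) = 0) ∧
      ∀ᶠ p : T × E in 𝓝 (τ₀, z), F p.1 p.2 = 0 → p.2 = g p.1) := by
    intro z
    by_cases hz : z ∈ Z
    · obtain ⟨g, hg⟩ := local_zero F hF τ₀ z (hZ z hz) (hD z hz)
      exact ⟨g, fun _ ↦ hg⟩
    · exact ⟨fun _ ↦ z, fun h ↦ absurd h hz⟩
  choose g hg using hloc
  have h1 : ∀ᶠ t in 𝓝 τ₀, ∀ z ∈ Z, g z t ∈ U ∧ F t (g z t) = 0 := by
    rw [eventually_all_finset]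
    intro z hz
    filter_upwards [(hg z hz).1 (hU z hz), (hg z hz).2.1] with t ht ht'
    exact ⟨ht, ht'⟩
  have h2 : ∀ᶠ t in 𝓝 τ₀, ∀ z ∈ Z, ∀ z' ∈ Z, z ≠ z' → g z t ≠ g z' t := by
    rw [eventually_all_finset]
    intro z hz
    rw [eventually_all_finset]
    intro z' hz'
    by_cases h : z = z'
    · exact Eventually.of_forall fun t h' ↦ absurd h h'
    · obtain ⟨A, B, hA, hB, hzA, hzB, hAB⟩ := t2_separation h
      filter_upwards [(hg z hz).1 (hA.mem_nhds hzA), (hg z' hz').1 (hB.mem_nhds hzB)]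
        with t ht ht' _ he
      have ht1 : g z t ∈ A := ht
      have ht2 : g z' t ∈ B := ht'
      rw [← he] at ht2
      exact Set.disjoint_left.1 hAB ht1 ht2
  have h3 : ∀ᶠ t in 𝓝 τ₀, ∀ u ∈ K, F t u = 0 → ∃ z ∈ Z, u = g z t := by
    refine hK.eventually_forall_of_forall_eventually fun u hu ↦ ?_
    by_cases h0 : F τ₀ u = 0
    · have hz := hKZ u hu h0
      filter_upwards [(hg u hz).2.2] with p hp hp0
      exact ⟨u, hz, hp hp0⟩
    · have hcont : Continuous fun p : T × E ↦ F p.1 p.2 := hF.continuous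
      have : ∀ᶠ p : T × E in 𝓝 (τ₀, u), F p.1 p.2 ≠ 0 :=
        hcont.continuousAt.eventually_ne h0
      filter_upwards [this] with p hp hp0
      exact absurd hp0 hp
  filter_upwards [h1, h2, h3] with t a1 a2 a3
  refine ⟨Z.image fun z ↦ g z t, ?_, ?_, ?_⟩
  · refine Finset.card_image_of_injOn fun z hz z' hz' h ↦ ?_
    by_contra hne
    exact a2 z hz z' hz' hne h
  · intro u hu
    obtain ⟨z, hz, rfl⟩ := Finset.mem_image.1 hu
    exact a1 z hz
  · intro u hu hu0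
    obtain ⟨z, hz, rfl⟩ := a3 u hu hu0
    exact Finset.mem_image_of_mem _ hz

end

/-- The parameters `(a, b, c, t)`, near `(a₀, b₀, c₀, 0)`, `t > 0`. -/
structure Near (a₀ b₀ c₀ ε a b c t : ℝ) : Prop where
  ha : |a - a₀| < ε
  hb : |b - b₀| < ε
  hc : |c - c₀| < ε
  t0 : 0 < t
  t1 : t < ε
  s : a + b + c = 1

theorem Near.mono {a₀ b₀ c₀ ε ε' a b c t : ℝ} (h : Near a₀ b₀ c₀ ε a b c t) (hε : ε ≤ ε') :
    Near a₀ b₀ c₀ ε' a b c t :=
  ⟨h.ha.trans_le hε, h.hb.trans_le hε, h.hc.trans_le hε, h.t0, h.t1.trans_le hε, h.s⟩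

/-- The form of the counting lemma used below. `S a b c t` is the set of interest: all its elements
are zeros of `F a b c t` in `K`, and it contains all the zeros of `F a b c t` in `U`. -/
theorem count_set {E : Type*} [NormedAddCommGroup E] [NormedSpace ℝ E] [FiniteDimensional ℝ E]
    (F : ℝ → ℝ → ℝ → ℝ → E → E)
    (hF : ContDiff ℝ 1 (fun z : (ℝ × ℝ × ℝ × ℝ) × E ↦ F z.1.1 z.1.2.1 z.1.2.2.1 z.1.2.2.2 z.2))
    (a₀ b₀ c₀ : ℝ) (K : Set E)
    (hK : IsCompact K) (Z : Finset E) (hKZ : ∀ u ∈ K, F a₀ b₀ c₀ 0 u = 0 → u ∈ Z)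
    (hZ : ∀ z ∈ Z, F a₀ b₀ c₀ 0 z = 0)
    (hD : ∀ z ∈ Z, ∀ v : E, HasDerivAt (fun s : ℝ ↦ F a₀ b₀ c₀ 0 (z + s • v)) 0 0 → v = 0)
    (U : Set E) (hU : ∀ z ∈ Z, U ∈ 𝓝 z) (S : ℝ → ℝ → ℝ → ℝ → Set E) (ε₀ : ℝ) (hε₀ : 0 < ε₀)
    (hS : ∀ a b c t, Near a₀ b₀ c₀ ε₀ a b c t → ∀ u ∈ S a b c t, u ∈ K ∧ F a b c t u = 0)
    (hS' : ∀ a b c t, Near a₀ b₀ c₀ ε₀ a b c t → ∀ u ∈ U, F a b c t u = 0 → u ∈ S a b c t) :
    ∃ ε > 0, ∀ a b c t, Near a₀ b₀ c₀ ε a b c t → (S a b c t).ncard = Z.card := by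
  have h := count (fun τ : ℝ × ℝ × ℝ × ℝ ↦ F τ.1 τ.2.1 τ.2.2.1 τ.2.2.2) hF (a₀, b₀, c₀, 0) K hK Z
    hKZ hZ hD U hU
  obtain ⟨ε, hε, h⟩ := Metric.eventually_nhds_iff.1 h
  refine ⟨min ε ε₀, lt_min hε hε₀, fun a b c t hN ↦ ?_⟩
  have hN' := hN.mono (min_le_right ε ε₀)
  have hN'' := hN.mono (min_le_left ε ε₀)
  obtain ⟨Zt, h1, h2, h3⟩ := h (y := (a, b, c, t)) (by
    rw [Prod.dist_eq, Prod.dist_eq, Prod.dist_eq]
    simp only [Real.dist_eq, sub_zero]
    refine max_lt hN''.ha (max_lt hN''.hb (max_lt hN''.hc ?_))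
    rw [abs_of_pos hN''.t0]
    exact hN''.t1)
  have : S a b c t = Zt := by
    ext u
    constructor
    · intro hu
      obtain ⟨p, q⟩ := hS a b c t hN' u hu
      exact h3 u p q
    · intro hu
      obtain ⟨p, q⟩ := h2 u hu
      exact hS' a b c t hN' u p q
  rw [this, Set.ncard_coe_finset, h1]

end Pool.Agent.Helper83.EINU
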