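import Pool.Agent.Helper83.EINU.N

/-!
# Project EIN (MP_06d934_gt), uniform version: three solutions near each Kähler solution of the three
block problem
-/

set_option autoImplicit false

namespace Pool.Agent.Helper83.EINU

open Finset Topology Pool.Agent.Helper83.EIN

theorem FK_cdP : ContDiff ℝ 1 (fun z : (ℝ × ℝ × ℝ × ℝ) × (Fin 6 → ℝ) ↦
    FK z.1.1 z.1.2.1 z.1.2.2.1 z.1.2.2.2 z.2) := by
  unfold FK N12 N23
  rw [contDiff_pi]
  intro i
  fin_cases i <;> simp <;> fun_prop

theorem Gk_nearP {a b c : ℝ} (ha : 0 < a) (hb : 0 < b) (hc : 0 < c) (habc : a + b + c = 1) :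
    ∃ r > 0, ∀ a' b' c' p q U : ℝ, |a' - a| < r → |b' - b| < r → |c' - c| < r →
      |p - (a + b)| < r → |q - (b + c)| < r → |U - (a + b + (b + c))| < r →
      Gk a' b' c' p q U ≤ -(2 * b * (a + b) * (b + c)) := by
  have hcont : Continuous fun x : ℝ × ℝ × ℝ × ℝ × ℝ × ℝ ↦
      Gk x.1 x.2.1 x.2.2.1 x.2.2.2.1 x.2.2.2.2.1 x.2.2.2.2.2 := by
    unfold Gk
    fun_prop
  have h1 := hcont.continuousAt (x := (a, b, c, a + b, b + c, a + b + (b + c)))
  rw [Metric.continuousAt_iff] at h1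
  have hpos : 0 < 2 * b * (a + b) * (b + c) := by positivity
  obtain ⟨r, hr, h2⟩ := h1 _ hpos
  refine ⟨r, hr, fun a' b' c' p q U ha' hb' hc' hp hq hU ↦ ?_⟩
  have h3 := h2 (x := (a', b', c', p, q, U)) (by
    rw [Prod.dist_eq, Prod.dist_eq, Prod.dist_eq, Prod.dist_eq, Prod.dist_eq]
    simp only [Real.dist_eq]
    exact max_lt ha' (max_lt hb' (max_lt hc' (max_lt hp (max_lt hq hU)))))
  simp only [Gk_val habc] at h3
  rw [Real.dist_eq, abs_lt] at h3
  linarith [h3.2]

/-- `R3` as a function of all variables. -/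
def R3p (x : Fin 13 → ℝ) : ℝ :=
  R3 (x 10) (x 11) (x 12) ![x 0, x 1, x 2, x 3, x 4, x 5, x 6, x 7, x 8, x 9]

theorem cont_R3p : Continuous R3p := by
  unfold R3p R3
  simp only [Matrix.cons_val]
  fun_prop

/-- A priori bounds for `κ` and `μ`. -/
theorem boundsK (hTI : TI) {a b c : ℝ} (ha : 0 < a) (hb : 0 < b) (hc : 0 < c)
    (habc : a + b + c = 1) :
    ∃ r₀ > 0, r₀ ≤ 1 / 2 ∧ r₀ ≤ (a + b) / 2 ∧ r₀ ≤ (b + c) / 2 ∧ ∃ C1 C2 : ℝ, 0 ≤ C1 ∧ 0 ≤ C2 ∧
      ∃ ε > 0, ε ≤ 1 / 4 ∧ ε ≤ a ∧ ε ≤ b ∧ ε ≤ c ∧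
        ∀ a' b' c' t, Near a b c ε a' b' c' t → ∀ u : Fin 6 → ℝ, 0 < u 0 →
          Sol a' b' c' t (psK t u) → |u 0 - (a + b)| < r₀ → |u 1 - (b + c)| < r₀ →
            |u 0 + u 1 + t * u 2 - (a + b + (b + c))| < r₀ → |u 2| ≤ C1 ∧ |u 4| ≤ C2 := by
  have hab : 0 < a + b := by linarith
  have hbc : 0 < b + c := by linarith
  obtain ⟨r1, hr1, hG⟩ := Gk_nearP ha hb hc habc
  obtain ⟨D1, hD1, hR2⟩ := box_bound R2 cont_R2 4
  set L1 := 1 / 8 * (2 * b * (a + b) * (b + c)) with hL1
  have hL1p : 0 < L1 := by positivity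
  set C1 := D1 / L1 with hC1
  have hC1n : 0 ≤ C1 := by positivity
  obtain ⟨D2, hD2, hR3⟩ := box_bound R3p cont_R3p (max 4 C1)
  set L2 := 1 / 8 * (c * ((a + b) / 2) ^ 2) with hL2
  have hL2p : 0 < L2 := by positivity
  refine ⟨min (min r1 (1 / 2)) (min ((a + b) / 2) ((b + c) / 2)), by positivity,
    (min_le_left _ _).trans (min_le_right _ _), (min_le_right _ _).trans (min_le_left _ _),
    (min_le_right _ _).trans (min_le_right _ _), C1, D2 / L2, hC1n, by positivity,
    min (min (min r1 (1 / 4)) (a / 2)) (min (b / 2) (c / 2)), by positivity,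
    (min_le_left _ _).trans ((min_le_left _ _).trans (min_le_right _ _)),
    ((min_le_left _ _).trans (min_le_right _ _)).trans (by linarith),
    ((min_le_right _ _).trans (min_le_left _ _)).trans (by linarith),
    ((min_le_right _ _).trans (min_le_right _ _)).trans (by linarith), ?_⟩
  intro a' b' c' t hN u hu0 hS hp hq hU
  have ht := hN.t0
  have ht4 : t < 1 / 4 := hN.t1.trans_le
    ((min_le_left _ _).trans ((min_le_left _ _).trans (min_le_right _ _)))
  have qa' : |a' - a| < r1 := hN.ha.trans_le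
    ((min_le_left _ _).trans ((min_le_left _ _).trans (min_le_left _ _)))
  have qb' : |b' - b| < r1 := hN.hb.trans_le
    ((min_le_left _ _).trans ((min_le_left _ _).trans (min_le_left _ _)))
  have qc' : |c' - c| < r1 := hN.hc.trans_le
    ((min_le_left _ _).trans ((min_le_left _ _).trans (min_le_left _ _)))
  have qa := abs_lt.1 (hN.ha.trans_le ((min_le_left _ _).trans (min_le_right _ _)))
  have qb := abs_lt.1 (hN.hb.trans_le ((min_le_right _ _).trans (min_le_left _ _)))
  have qc := abs_lt.1 (hN.hc.trans_le ((min_le_right _ _).trans (min_le_right _ _)))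
  have ha' : 0 < a' := by linarith [qa.1]
  have hb' : 0 < b' := by linarith [qb.1]
  have hc' : 0 < c' := by linarith [qc.1]
  have hc2 : c / 2 ≤ c' := by linarith [qc.1]
  have habc' := hN.s
  have B := bd hTI ha' hb' hc' habc' ht (by linarith) hS
  obtain ⟨w1, w2, w3, w4, w5, w6⟩ := locK ht hu0 B
  have hz := (sol_iff_FK habc' ht hS.pos).1 hS
  have hp1 := hp.trans_le ((min_le_left _ _).trans (min_le_left _ _))
  have hq1 := hq.trans_le ((min_le_left _ _).trans (min_le_left _ _))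
  have hU1 := hU.trans_le ((min_le_left _ _).trans (min_le_left _ _))
  have hp2 := hp.trans_le ((min_le_left _ _).trans (min_le_right _ _))
  have hq2 := hq.trans_le ((min_le_left _ _).trans (min_le_right _ _))
  have hU2 := hU.trans_le ((min_le_left _ _).trans (min_le_right _ _))
  have hp3 := hp.trans_le ((min_le_right _ _).trans (min_le_left _ _))
  have hG1 := hG _ _ _ _ _ _ qa' qb' qc' hp1 hq1 hU1
  rw [abs_lt] at hp2 hq2 hU2 hp3
  rw [abs_le] at w1 w2 w3 w4 w5 w6
  set z1 := 1 + t * (u 5 + u 3 * u 0) with hz1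
  set z2 := 1 + t * u 5 with hz2
  set z3 := 1 + t * (u 5 - (u 3 * u 1 - t * u 4)) with hz3
  have b1 : 1 / 2 ≤ z1 := by rw [hz1]; linarith only [w4.1, ht4]
  have b2 : 1 / 2 ≤ z2 := by rw [hz2]; linarith only [w5.1, ht4]
  have b3 : 1 / 2 ≤ z3 := by rw [hz3]; linarith only [w6.1, ht4]
  have b1' : z1 ≤ 2 := by rw [hz1]; linarith only [w4.2, ht4]
  have b2' : z2 ≤ 2 := by rw [hz2]; linarith only [w5.2, ht4]
  have b3' : z3 ≤ 2 := by rw [hz3]; linarith only [w6.2, ht4]
  have hzz : 1 / 8 ≤ z1 * z2 * z3 := by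
    have h12 : 1 / 4 ≤ z1 * z2 := by nlinarith only [b1, b2]
    nlinarith only [h12, b3]
  have B0 : |u 0| ≤ 4 := by
    rw [abs_le]; constructor <;> linarith only [hp2.1, hp2.2, habc, ha, hb, hc]
  have B1 : |u 1| ≤ 4 := by
    rw [abs_le]; constructor <;> linarith only [hq2.1, hq2.2, habc, ha, hb, hc]
  have B2 : |u 0 + u 1 + t * u 2| ≤ 4 := by
    rw [abs_le]; constructor <;> linarith only [hU2.1, hU2.2, habc, ha, hb, hc]
  have B3 : |u 3| ≤ 4 := by
    rw [abs_le]; constructor <;> linarith only [w1.1, w1.2]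
  have B4 : |u 3 * u 1 - t * u 4| ≤ 4 := by
    rw [abs_le] at B1 ⊢; constructor <;> linarith only [w3.1, w3.2, B1.1, B1.2]
  have B5 : |z1| ≤ 4 := by
    rw [abs_le]; constructor <;> linarith only [b1, b1']
  have B6 : |z2| ≤ 4 := by
    rw [abs_le]; constructor <;> linarith only [b2, b2']
  have B7 : |z3| ≤ 4 := by
    rw [abs_le]; constructor <;> linarith only [b3, b3']
  have B8 : |t| ≤ 4 := by
    rw [abs_le]; constructor <;> linarith only [ht, ht4]
  have B9 : |a'| ≤ 4 := by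
    rw [abs_le]; constructor <;> linarith only [ha', hb', hc', habc']
  have B10 : |b'| ≤ 4 := by
    rw [abs_le]; constructor <;> linarith only [ha', hb', hc', habc']
  have B11 : |c'| ≤ 4 := by
    rw [abs_le]; constructor <;> linarith only [ha', hb', hc', habc']
  -- κ
  have f2 := congrFun hz 2
  rw [FK2_eq, Pi.zero_apply, ← hz1, ← hz2, ← hz3] at f2
  have k1 : |u 2| ≤ C1 := by
    have hb1 : |R2 ![u 0, u 1, u 0 + u 1 + t * u 2, u 3, u 3 * u 1 - t * u 4, z1, z2, z3, t]| ≤
        D1 := by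
      apply hR2
      intro i
      fin_cases i
      · exact B0
      · exact B1
      · exact B2
      · exact B3
      · exact B4
      · exact B5
      · exact B6
      · exact B7
      · exact B8
    refine abs_le_of_mul (l := z1 * z2 * z3 * -(Gk a' b' c' (u 0) (u 1) (u 0 + u 1 + t * u 2))) hL1p
      ?_ ?_
    · rw [hL1]
      exact mul_le_mul hzz (by linarith only [hG1]) (by positivity) (by linarith only [hzz])
    · have : u 2 * (z1 * z2 * z3 * -(Gk a' b' c' (u 0) (u 1) (u 0 + u 1 + t * u 2))) =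
          -(R2 ![u 0, u 1, u 0 + u 1 + t * u 2, u 3, u 3 * u 1 - t * u 4, z1, z2, z3, t]) := by
        linear_combination -f2
      rw [this, abs_neg]
      exact hb1
  refine ⟨k1, ?_⟩
  have f3 := congrFun hz 3
  rw [FK3_eq, Pi.zero_apply, ← hz1, ← hz2, ← hz3] at f3
  have hb2 : |R3 a' b' c' ![u 0, u 1, u 0 + u 1 + t * u 2, u 3, u 3 * u 1 - t * u 4, z1, z2, z3, t,
      u 2]| ≤ D2 := by
    have e : R3 a' b' c' ![u 0, u 1, u 0 + u 1 + t * u 2, u 3, u 3 * u 1 - t * u 4, z1, z2, z3, t,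
      u 2] = R3p ![u 0, u 1, u 0 + u 1 + t * u 2, u 3, u 3 * u 1 - t * u 4, z1, z2, z3, t,
      u 2, a', b', c'] := rfl
    rw [e]
    apply hR3
    have key : ∀ x : ℝ, |x| ≤ 4 → |x| ≤ max 4 C1 := fun x hx ↦ hx.trans (le_max_left _ _)
    intro i
    fin_cases i
    · exact key _ B0
    · exact key _ B1
    · exact key _ B2
    · exact key _ B3
    · exact key _ B4
    · exact key _ B5
    · exact key _ B6
    · exact key _ B7
    · exact key _ B8
    · exact k1.trans (le_max_right _ _)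
    · exact key _ B9
    · exact key _ B10
    · exact key _ B11
  refine abs_le_of_mul (l := 2 * c' * u 0 ^ 2 * z1 * z2 * z3) hL2p ?_ ?_
  · have e1 : 2 * c' * u 0 ^ 2 * z1 * z2 * z3 = (z1 * z2 * z3) * (2 * c' * u 0 ^ 2) := by ring
    rw [e1, hL2]
    refine mul_le_mul hzz ?_ (by positivity) (by linarith only [hzz])
    have e2 : ((a + b) / 2) ^ 2 ≤ u 0 ^ 2 :=
      pow_le_pow_left₀ (by positivity) (by linarith only [hp3.1]) 2
    exact mul_le_mul (by linarith only [hc2]) e2 (by positivity) (by linarith only [hc'])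
  · have : u 4 * (2 * c' * u 0 ^ 2 * z1 * z2 * z3) = R3 a' b' c' ![u 0, u 1, u 0 + u 1 + t * u 2, u 3,
        u 3 * u 1 - t * u 4, z1, z2, z3, t, u 2] := by
      linear_combination -f3
    rw [this]
    exact hb2

/-- **G_K**: exactly three solutions near a Kähler solution of the three block problem. -/
theorem gK (hTI : TI) {a b c : ℝ} (ha : 0 < a) (hb : 0 < b) (hc : 0 < c) (habc : a + b + c = 1) :
    ∃ r₀ > 0, ∀ r, 0 < r → r ≤ r₀ → ∃ ε > 0, ∀ a' b' c' t, Near a b c ε a' b' c' t →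
      {v : Fin 6 → ℝ | Sol a' b' c' t v ∧ |v 0 / t - (a + b)| < r ∧
        |v 1 / t - (a + 2 * b + c)| < r ∧ |v 2 / t - (b + c)| < r}.ncard = 3 := by
  classical
  have hab : 0 < a + b := by linarith
  have hbc : 0 < b + c := by linarith
  have hpq : a + 2 * b + c = a + b + (b + c) := by ring
  obtain ⟨r₀, hr₀, hr1, hr2, hr3, C1, C2, hC1, hC2, ε₁, hε₁, he4, hea, heb, hec, hbd⟩ :=
    boundsK hTI ha hb hc habc
  refine ⟨r₀, hr₀, fun r hr hrr ↦ ?_⟩
  have hZ3 : ({zK a b c 1, zK a b c (-1), zK a b c (w0 a b c)} :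
      Finset (Fin 6 → ℝ)).card = 3 := by
    obtain ⟨h1, h2⟩ := w0_lt ha hb hc
    rw [card_eq_three]
    refine ⟨_, _, _, ?_, ?_, ?_, rfl⟩
    · intro h
      have := congrFun h 3
      simp only [zK, Matrix.cons_val] at this
      norm_num at this
    · intro h
      have := congrFun h 3
      simp only [zK, Matrix.cons_val] at this
      linarith
    · intro h
      have := congrFun h 3
      simp only [zK, Matrix.cons_val] at this
      linarith
  have hmemZ : ∀ z ∈ ({zK a b c 1, zK a b c (-1), zK a b c (w0 a b c)} :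
      Finset (Fin 6 → ℝ)), ∃ w, z = zK a b c w ∧ |w| ≤ 1 ∧
        (1 - w ^ 2) * (w * hh a b c + gg a b c) = 0 ∧
        (1 - w ^ 2) * hh a b c - 2 * w * (w * hh a b c + gg a b c) ≠ 0 := by
    intro z hz
    rw [mem_insert, mem_insert, mem_singleton] at hz
    obtain ⟨h1, h2⟩ := w0_lt ha hb hc
    have hhp := hh_pos ha hb hc
    have hw := w0_eq ha hb hc
    rcases hz with rfl | rfl | rfl
    · refine ⟨1, rfl, by simp, by ring, ?_⟩
      have : (1 - (1 : ℝ) ^ 2) * hh a b c - 2 * 1 * (1 * hh a b c + gg a b c) =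
          -(4 * a * b + 4 * c ^ 2) := by
        unfold hh gg
        ring
      rw [this]
      have : 0 < 4 * a * b + 4 * c ^ 2 := by positivity
      linarith
    · refine ⟨-1, rfl, by simp, by ring, ?_⟩
      have : (1 - (-1 : ℝ) ^ 2) * hh a b c - 2 * (-1) * (-1 * hh a b c + gg a b c) =
          -(4 * a ^ 2 + 4 * b * c) := by
        unfold hh gg
        ring
      rw [this]
      have : 0 < 4 * a ^ 2 + 4 * b * c := by positivity
      linarith
    · refine ⟨w0 a b c, rfl, abs_le.2 ⟨h1.le, h2.le⟩, by rw [hw, mul_zero], ?_⟩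
      rw [hw, mul_zero, sub_zero]
      have : 0 < 1 - w0 a b c ^ 2 := by nlinarith
      positivity
  -- the size of the limit zeros
  obtain ⟨M, hM, hMz⟩ : ∃ M : ℝ, 0 < M ∧ ∀ z ∈ ({zK a b c 1, zK a b c (-1),
      zK a b c (w0 a b c)} : Finset (Fin 6 → ℝ)), |z 2| < M ∧ |z 4| < M := by
    refine ⟨∑ z ∈ ({zK a b c 1, zK a b c (-1), zK a b c (w0 a b c)} : Finset (Fin 6 → ℝ)),
      (|z 2| + |z 4|) + 1, ?_, fun z hz ↦ ?_⟩
    · have : 0 ≤ ∑ z ∈ ({zK a b c 1, zK a b c (-1), zK a b c (w0 a b c)} : Finset (Fin 6 → ℝ)),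
        (|z 2| + |z 4|) := sum_nonneg fun z _ ↦ by positivity
      linarith
    · have h1 : |z 2| + |z 4| ≤ ∑ z ∈ ({zK a b c 1, zK a b c (-1), zK a b c (w0 a b c)} :
          Finset (Fin 6 → ℝ)), (|z 2| + |z 4|) :=
        single_le_sum (f := fun z : Fin 6 → ℝ ↦ |z 2| + |z 4|) (fun z _ ↦ by positivity) hz
      have h2 := abs_nonneg (z 2)
      have h3 := abs_nonneg (z 4)
      constructor <;> linarith
  have hK : IsCompact (Set.Icc (![a + b - r, b + c - r, -C1, -1, -C2, -1] : Fin 6 → ℝ)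
      ![a + b + r, b + c + r, C1, 1, C2, 1]) := isCompact_Icc
  suffices hcount : ∃ ε > 0, ∀ a' b' c' t, Near a b c ε a' b' c' t →
      {u | 0 < u 0 ∧ Sol a' b' c' t (psK t u) ∧ |psK t u 0 / t - (a + b)| < r ∧
        |psK t u 1 / t - (a + 2 * b + c)| < r ∧ |psK t u 2 / t - (b + c)| < r}.ncard =
        ({zK a b c 1, zK a b c (-1), zK a b c (w0 a b c)} : Finset (Fin 6 → ℝ)).card by
    obtain ⟨ε, hε, hcount⟩ := hcount
    refine ⟨ε, hε, fun a' b' c' t hN ↦ ?_⟩
    have ht0 := hN.t0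
    have h1 : {v : Fin 6 → ℝ | Sol a' b' c' t v ∧ |v 0 / t - (a + b)| < r ∧
        |v 1 / t - (a + 2 * b + c)| < r ∧ |v 2 / t - (b + c)| < r} =
        psK t '' {u | 0 < u 0 ∧ Sol a' b' c' t (psK t u) ∧ |psK t u 0 / t - (a + b)| < r ∧
        |psK t u 1 / t - (a + 2 * b + c)| < r ∧ |psK t u 2 / t - (b + c)| < r} := by
      ext v
      constructor
      · intro hv
        have hv0 := hv.1.pos 0
        refine ⟨coK t v, ⟨?_, ?_⟩, psK_surj ht0 hv0.ne'⟩
        · show 0 < v 0 / t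
          positivity
        · rw [psK_surj ht0 hv0.ne']
          exact hv
      · rintro ⟨u, ⟨-, hu⟩, rfl⟩
        exact hu
    rw [h1, Set.InjOn.ncard_image, hcount a' b' c' t hN, hZ3]
    exact (psK_inj ht0).mono fun u hu ↦ hu.1
  refine count_set FK FK_cdP a b c _ hK
    {zK a b c 1, zK a b c (-1), zK a b c (w0 a b c)} ?_ ?_ ?_
    (Set.pi Set.univ fun i ↦ Set.Ioo ((![a + b - r / 4, b + c - r / 4, -M, -2, -M, -2] : Fin 6 → ℝ) i)
      ((![a + b + r / 4, b + c + r / 4, M, 2, M, 2] : Fin 6 → ℝ) i)) ?_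
    (fun a' b' c' t ↦ {u | 0 < u 0 ∧ Sol a' b' c' t (psK t u) ∧ |psK t u 0 / t - (a + b)| < r ∧
        |psK t u 1 / t - (a + 2 * b + c)| < r ∧ |psK t u 2 / t - (b + c)| < r})
    (min ε₁ (min (1 / 20) (min (r / (4 * M)) (1 / M)))) (by positivity) ?_ ?_
  · intro u hu h0
    rw [Set.mem_Icc, Pi.le_def, Pi.le_def] at hu
    have l0 := hu.1 0
    have l1 := hu.1 1
    simp only [Matrix.cons_val] at l0 l1
    obtain ⟨h1, h2⟩ := FK_zero_only ha hb hc habc (u := u) (by linarith) (by linarith) h0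
    rw [mem_insert, mem_insert, mem_singleton]
    rcases mul_eq_zero.1 h2 with h3 | h3
    · have h4 : (1 - u 3) * (1 + u 3) = 0 := by linear_combination h3
      rcases mul_eq_zero.1 h4 with h5 | h5
      · left
        rw [h1]
        congr 1
        linarith
      · right
        left
        rw [h1]
        congr 1
        linarith
    · right
      right
      rw [h1]
      congr 1
      have h5 := w0_eq ha hb hc
      have h6 : (u 3 - w0 a b c) * hh a b c = 0 := by linear_combination h3 - h5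
      have := (mul_eq_zero.1 h6).resolve_right (hh_pos ha hb hc).ne'
      linarith
  · intro z hz
    obtain ⟨w, rfl, -, hw, -⟩ := hmemZ z hz
    exact FK_zK ha hb hc habc hw
  · intro z hz v hv
    obtain ⟨w, rfl, -, -, hw⟩ := hmemZ z hz
    exact FK_nondeg ha hb hc habc hw v hv
  · intro z hz
    obtain ⟨m2, m4⟩ := hMz z hz
    obtain ⟨w, rfl, hw1, -, -⟩ := hmemZ z hz
    rw [abs_lt] at m2 m4
    rw [abs_le] at hw1
    refine (isOpen_set_pi Set.finite_univ fun i _ ↦ isOpen_Ioo).mem_nhds ?_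
    have hca : |c - a| < 1 := by rw [abs_lt]; constructor <;> linarith
    have h5 : |(c - a) * w| ≤ 1 := by
      rw [abs_mul]
      have : |w| ≤ 1 := abs_le.2 hw1
      exact mul_le_one₀ hca.le (abs_nonneg w) this
    rw [abs_le] at h5
    intro i _
    fin_cases i
    · simp only [zK]; constructor <;> simp <;> linarith
    · simp only [zK]; constructor <;> simp <;> linarith
    · exact m2
    · simp only [zK]; constructor <;> simp <;> linarith
    · exact m4
    · simp only [zK]; constructor <;> simp <;> linarith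
  · rintro a' b' c' t hN' u ⟨hu0, hS, g0, g1, g2⟩
    have hN := hN'.mono (min_le_left _ _)
    have ht := hN.t0
    have ht4 : t < 1 / 4 := hN.t1.trans_le he4
    obtain ⟨ha', hb', hc'⟩ := hN.pos hea heb hec
    have B := bd hTI ha' hb' hc' hN.s ht (by linarith) hS
    obtain ⟨x1, x2, x3, x4, x5, x6⟩ := locK ht hu0 B
    have ht' := ht.ne'
    have e0 : psK t u 0 / t = u 0 := by simp only [psK, Matrix.cons_val]; field_simp
    have e1 : psK t u 1 / t = u 0 + u 1 + t * u 2 := by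
      simp only [psK, Matrix.cons_val]; field_simp
    have e2 : psK t u 2 / t = u 1 := by simp only [psK, Matrix.cons_val]; field_simp
    rw [e0] at g0
    rw [e1, hpq] at g1
    rw [e2] at g2
    obtain ⟨k1, k2⟩ := hbd a' b' c' t hN u hu0 hS (g0.trans_le hrr) (g2.trans_le hrr) (g1.trans_le hrr)
    rw [abs_le] at x1 x2 k1 k2
    rw [abs_lt] at g0 g2
    refine ⟨⟨?_, ?_⟩, (sol_iff_FK hN.s ht hS.pos).1 hS⟩
    · intro i
      fin_cases i <;> simp <;> linarith [x1.1, x2.1, k1.1, k2.1, g0.1, g2.1]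
    · intro i
      fin_cases i <;> simp <;> linarith [x1.2, x2.2, k1.2, k2.2, g0.2, g2.2]
  · intro a' b' c' t hN u hu h0
    have ht := hN.t0
    have ht2 := hN.t1.trans_le (min_le_right _ _)
    have s1 := ht2.trans_le (min_le_left _ _)
    have s2 := ht2.trans_le ((min_le_right _ _).trans (min_le_left _ _))
    have s3 := ht2.trans_le ((min_le_right _ _).trans (min_le_right _ _))
    have s2' : t * M ≤ r / 4 := by
      rw [lt_div_iff₀ (by positivity)] at s2
      linarith
    have s3' : t * M ≤ 1 := by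
      rw [lt_div_iff₀ hM] at s3
      exact s3.le
    obtain ⟨l0, m0⟩ := hu 0 trivial
    obtain ⟨l1, m1⟩ := hu 1 trivial
    obtain ⟨l2, m2⟩ := hu 2 trivial
    obtain ⟨l3, m3⟩ := hu 3 trivial
    obtain ⟨l4, m4⟩ := hu 4 trivial
    obtain ⟨l5, m5⟩ := hu 5 trivial
    simp only [Matrix.cons_val] at l0 l1 l2 l3 l4 l5 m0 m1 m2 m3 m4 m5
    have q0 : 0 < u 0 := by linarith
    have q1 : 0 < u 1 := by linarith
    have q0' : u 0 < 2 := by linarith
    have q1' : u 1 < 2 := by linarith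
    have k2 : |t * u 2| ≤ r / 4 := by
      rw [abs_mul, abs_of_pos ht]
      exact (mul_le_mul_of_nonneg_left (abs_le.2 ⟨l2.le, m2.le⟩) ht.le).trans s2'
    have k4 : |t * u 4| ≤ 1 := by
      rw [abs_mul, abs_of_pos ht]
      exact (mul_le_mul_of_nonneg_left (abs_le.2 ⟨l4.le, m4.le⟩) ht.le).trans s3'
    have n1 : |u 3 * u 0| ≤ 4 := by
      rw [abs_mul, abs_of_pos q0]
      have : |u 3| ≤ 2 := abs_le.2 ⟨l3.le, m3.le⟩
      nlinarith [abs_nonneg (u 3)]
    have n2 : |u 3 * u 1| ≤ 4 := by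
      rw [abs_mul, abs_of_pos q1]
      have : |u 3| ≤ 2 := abs_le.2 ⟨l3.le, m3.le⟩
      nlinarith [abs_nonneg (u 3)]
    rw [abs_le] at k2 k4 n1 n2
    have hU : 0 < u 0 + u 1 + t * u 2 := by linarith [k2.1]
    have hmul : ∀ x : ℝ, -10 < x → 0 < 1 + t * x := by
      intro x hx
      nlinarith
    have ht' := ht.ne'
    have e0 : psK t u 0 / t = u 0 := by simp only [psK, Matrix.cons_val]; field_simp
    have e1 : psK t u 1 / t = u 0 + u 1 + t * u 2 := by
      simp only [psK, Matrix.cons_val]; field_simp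
    have e2 : psK t u 2 / t = u 1 := by simp only [psK, Matrix.cons_val]; field_simp
    refine ⟨q0, (sol_iff_FK hN.s ht ?_).2 h0, ?_, ?_, ?_⟩
    · intro i
      fin_cases i
      · exact mul_pos ht q0
      · exact mul_pos ht hU
      · exact mul_pos ht q1
      · exact hmul _ (by linarith [n1.1])
      · exact hmul _ (by linarith)
      · exact hmul _ (by linarith [n2.2, k4.1])
    · rw [e0, abs_lt]
      constructor <;> linarith
    · rw [e1, hpq, abs_lt]
      constructor <;> linarith [k2.1, k2.2]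
    · rw [e2, abs_lt]
      constructor <;> linarith

end Pool.Agent.Helper83.EINU
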