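import Pool.Agent.Helper83.EINU.B

/-!
# Project EIN (MP_06d934_gt), uniform version: the solutions near the solution of the three block
problem which is not Kähler
-/

set_option autoImplicit false

namespace Pool.Agent.Helper83.EINU

open Finset Topology Pool.Agent.Helper83.EIN

theorem FN_cdP : ContDiff ℝ 1 (fun z : (ℝ × ℝ × ℝ × ℝ) × (Fin 6 → ℝ) ↦
    FN z.1.1 z.1.2.1 z.1.2.2.1 z.1.2.2.2 z.2) := by
  unfold FN
  rw [contDiff_pi]
  intro i
  fin_cases i <;> simp <;> fun_prop

/-- **G_N**: exactly one solution near the solution of the three block problem which is not Kähler. -/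
theorem gN (hTI : TI) {a b c : ℝ} (ha : 0 < a) (hb : 0 < b) (hc : 0 < c) (habc : a + b + c = 1)
    {r : ℝ} (hr : 0 < r) (hr0 : r < (sc a b c - 1) * (a + b)) (hr1 : r < (sc a b c - 1) * (a + c))
    (hr2 : r < (sc a b c - 1) * (b + c)) :
    ∃ ε > 0, ∀ a' b' c' t, Near a b c ε a' b' c' t →
      {v : Fin 6 → ℝ | Sol a' b' c' t v ∧ |v 0 / t - sc a b c * (a + b)| < r ∧
        |v 1 / t - sc a b c * (a + c)| < r ∧ |v 2 / t - sc a b c * (b + c)| < r}.ncard = 1 := by
  have hab : 0 < a + b := by linarith
  have hac : 0 < a + c := by linarith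
  have hbc : 0 < b + c := by linarith
  have hk1 := one_lt_sc ha hb hc
  have hE := e3_n ha hb hc habc
  have hsc := sc_eq ha hb hc
  set k := sc a b c with hk
  set P0 := k * (a + b) with hP0
  set P1 := k * (a + c) with hP1
  set P2 := k * (b + c) with hP2
  have r0 : r < P0 - (a + b) := by rw [hP0]; linarith
  have r1 : r < P1 - (a + c) := by rw [hP1]; linarith
  have r2 : r < P2 - (b + c) := by rw [hP2]; linarith
  have hzN : zN a b c = ![P0, P1, P2, 0, 0, 0] := rfl
  have hK : IsCompact (Set.Icc (![P0 - r, P1 - r, P2 - r, -1, -1, -1] : Fin 6 → ℝ)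
      ![P0 + r, P1 + r, P2 + r, 1, 1, 1]) := isCompact_Icc
  suffices hcount : ∃ ε > 0, ∀ a' b' c' t, Near a b c ε a' b' c' t →
      {u | Sol a' b' c' t (psN t u) ∧ |psN t u 0 / t - P0| < r ∧ |psN t u 1 / t - P1| < r ∧
        |psN t u 2 / t - P2| < r}.ncard = ({zN a b c} : Finset (Fin 6 → ℝ)).card by
    obtain ⟨ε, hε, hcount⟩ := hcount
    refine ⟨ε, hε, fun a' b' c' t hN ↦ ?_⟩
    have ht0 := hN.t0
    have h1 : {v : Fin 6 → ℝ | Sol a' b' c' t v ∧ |v 0 / t - P0| < r ∧
        |v 1 / t - P1| < r ∧ |v 2 / t - P2| < r} =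
        psN t '' {u | Sol a' b' c' t (psN t u) ∧ |psN t u 0 / t - P0| < r ∧
          |psN t u 1 / t - P1| < r ∧ |psN t u 2 / t - P2| < r} := by
      ext v
      constructor
      · intro hv
        refine ⟨_, ?_, psN_surj ht0 v⟩
        rw [Set.mem_ofPred_eq, psN_surj ht0 v]
        exact hv
      · rintro ⟨u, hu, rfl⟩
        exact hu
    rw [h1, Set.ncard_image_of_injective _ (psN_inj ht0), hcount a' b' c' t hN, card_singleton]
  refine count_set FN FN_cdP a b c _ hK {zN a b c} ?_ ?_ ?_
    (Set.pi Set.univ fun i ↦ Set.Ioo ((![P0 - r, P1 - r, P2 - r, -2, -2, -2] : Fin 6 → ℝ) i)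
      ((![P0 + r, P1 + r, P2 + r, 2, 2, 2] : Fin 6 → ℝ) i)) ?_
    (fun a' b' c' t ↦ {u | Sol a' b' c' t (psN t u) ∧ |psN t u 0 / t - P0| < r ∧
      |psN t u 1 / t - P1| < r ∧ |psN t u 2 / t - P2| < r})
    (min (min (1/4) (a / 4)) (min (b / 4) (c / 4))) (by positivity) ?_ ?_
  · intro u hu h0
    rw [Set.mem_Icc, Pi.le_def, Pi.le_def] at hu
    have l0 := hu.1 0
    have l1 := hu.1 1
    have l2 := hu.1 2
    simp at l0 l1 l2
    have f0 := congrFun h0 0
    have f1 := congrFun h0 1
    have f2 := congrFun h0 2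
    have f3 := congrFun h0 3
    have f4 := congrFun h0 4
    have f5 := congrFun h0 5
    simp only [FN] at f0 f1 f2 f3 f4 f5
    simp only [Matrix.cons_val, zero_mul, add_zero, sub_zero, Pi.zero_apply, mul_one,
      one_mul, zero_sub] at f0 f1 f2 f3 f4 f5
    have hu0 : 0 < u 0 := by linarith
    have hE3 : E3 a b c (u 0) (u 1) (u 2) := ⟨f0, f1, f2⟩
    rcases three ha hb hc habc hu0 hE3 with ⟨q0, q1, q2⟩ | ⟨q0, q1, q2⟩ | ⟨q0, q1, q2⟩ |
      ⟨q0, q1, q2⟩
    · rw [q0, q1, ← hk, ← hP0, ← hP1] at f3
      rw [q0, q2, ← hk, ← hP0, ← hP2] at f4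
      rw [q1, q2, ← hk, ← hP1, ← hP2] at f5
      have hkp : 0 < k := by linarith
      obtain ⟨a3, a4, a5⟩ := height_zero (x := u 3) (y := u 4) (z := u 5) ha hb hc hsc
        (by
          have : (2 * k) * (k * (a + b) * (a + c) * u 3) = (2 * k) * (b * (u 3 - u 4) * (a + c) +
              c * (u 3 - u 5) * (a + b)) := by
            rw [hP0, hP1] at f3
            linear_combination f3
          exact mul_left_cancel₀ (by positivity) this)
        (by
          have : (2 * k) * (k * (a + b) * (b + c) * u 4) = (2 * k) * (a * (u 4 - u 3) * (b + c) +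
              c * (u 4 - u 5) * (a + b)) := by
            rw [hP0, hP2] at f4
            linear_combination f4
          exact mul_left_cancel₀ (by positivity) this)
        (by
          have : (2 * k) * (k * (a + c) * (b + c) * u 5) = (2 * k) * (a * (u 5 - u 3) * (b + c) +
              b * (u 5 - u 4) * (a + c)) := by
            rw [hP1, hP2] at f5
            linear_combination f5
          exact mul_left_cancel₀ (by positivity) this)
      rw [mem_singleton, hzN]
      funext i
      fin_cases i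
      · exact q0
      · exact q1
      · exact q2
      · exact a3
      · exact a4
      · exact a5
    · exfalso
      linarith
    · exfalso
      linarith
    · exfalso
      linarith
  · intro z hz
    rw [mem_singleton] at hz
    subst hz
    rw [hzN]
    funext i
    have E0 := hE.e0
    have E1 := hE.e1
    have E2 := hE.e2
    fin_cases i
    · simp [FN]
      linear_combination E0
    · simp [FN]
      linear_combination E1
    · simp [FN]
      linear_combination E2
    · simp [FN]
    · simp [FN]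
    · simp [FN]
  · intro z hz v hv
    rw [mem_singleton] at hz
    subst hz
    exact FN_nondeg ha hb hc habc v hv
  · intro z hz
    rw [mem_singleton] at hz
    subst hz
    rw [hzN]
    refine (isOpen_set_pi Set.finite_univ fun i _ ↦ isOpen_Ioo).mem_nhds ?_
    intro i _
    fin_cases i <;> simp <;> linarith
  · rintro a' b' c' t hN u ⟨hu, g0, g1, g2⟩
    have ht2 : t < 1 / 4 := hN.t1.trans_le ((min_le_left _ _).trans (min_le_left _ _))
    have ht := hN.t0
    have qa := abs_lt.1 (hN.ha.trans_le ((min_le_left _ _).trans (min_le_right _ _)))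
    have qb := abs_lt.1 (hN.hb.trans_le ((min_le_right _ _).trans (min_le_left _ _)))
    have qc := abs_lt.1 (hN.hc.trans_le ((min_le_right _ _).trans (min_le_right _ _)))
    have ha' : 0 < a' := by linarith [qa.1]
    have hb' : 0 < b' := by linarith [qb.1]
    have hc' : 0 < c' := by linarith [qc.1]
    have B := bd hTI ha' hb' hc' hN.s ht (by linarith) hu
    have H := heights ht B
    have ht' := ht.ne'
    simp [psN, ht'] at g0 g1 g2
    rw [abs_lt] at g0 g1 g2
    obtain ⟨⟨x3, y3⟩, ⟨x4, y4⟩, x5, y5⟩ := H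
    refine ⟨⟨?_, ?_⟩, (sol_iff_FN ht hu.pos).1 hu⟩
    · intro i
      fin_cases i <;> simp <;> linarith
    · intro i
      fin_cases i <;> simp <;> linarith
  · intro a' b' c' t hN u hu h0
    have ht2 : t < 1 / 4 := hN.t1.trans_le ((min_le_left _ _).trans (min_le_left _ _))
    have ht := hN.t0
    obtain ⟨l0, m0⟩ := hu 0 trivial
    obtain ⟨l1, m1⟩ := hu 1 trivial
    obtain ⟨l2, m2⟩ := hu 2 trivial
    obtain ⟨l3, m3⟩ := hu 3 trivial
    obtain ⟨l4, m4⟩ := hu 4 trivial
    obtain ⟨l5, m5⟩ := hu 5 trivial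
    simp at l0 l1 l2 l3 l4 l5 m0 m1 m2 m3 m4 m5
    have ht' := ht.ne'
    refine ⟨(sol_iff_FN ht ?_).2 h0, ?_, ?_, ?_⟩
    · intro i
      fin_cases i
      · exact mul_pos ht (by linarith)
      · exact mul_pos ht (by linarith)
      · exact mul_pos ht (by linarith)
      · show 0 < 1 + t * u 3
        nlinarith
      · show 0 < 1 + t * u 4
        nlinarith
      · show 0 < 1 + t * u 5
        nlinarith
    · simp [psN, ht']
      rw [abs_lt]
      constructor <;> linarith
    · simp [psN, ht']
      rw [abs_lt]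
      constructor <;> linarith
    · simp [psN, ht']
      rw [abs_lt]
      constructor <;> linarith

end Pool.Agent.Helper83.EINU
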