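import Pool.Agent.Helper83.EINU.O
import Pool.Agent.Helper83.EIN.Total

/-!
# Project EIN (MP_06d934_gt), uniform version: the count of the reduced system
-/

set_option autoImplicit false

namespace Pool.Agent.Helper83.EINU

open Finset Topology Filter Pool.Agent.Helper83.EIN

/-- Twenty solutions if `t` is small. -/
theorem total (hTI : TI) {a b c : ℝ} (ha : 0 < a) (hb : 0 < b) (hc : 0 < c)
    (habc : a + b + c = 1) :
    ∃ ε > 0, ∀ a' b' c' t, Near a b c ε a' b' c' t →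
      {v : Fin 6 → ℝ | Sol a' b' c' t v}.ncard = 20 := by
  obtain ⟨ε1, hε1, N1⟩ := gA hTI ha hb hc
  obtain ⟨ε2, hε2, N2⟩ := gB hTI ha hb hc habc
  obtain ⟨ε3, hε3, N3⟩ := gB hTI ha hc hb (by linarith)
  obtain ⟨ε4, hε4, N4⟩ := gB hTI hb hc ha (by linarith)
  obtain ⟨ε5, hε5, N5⟩ := gO hTI ha hb hc habc
  refine ⟨min (min (min (min ε1 ε2) (min ε3 ε4)) (min ε5 (1 / 20))) (min a (min b c)),
    by positivity, fun a' b' c' t hN' ↦ ?_⟩
  obtain ⟨ha', hb', hc'⟩ := hN'.pos ((min_le_right _ _).trans (min_le_left _ _))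
    ((min_le_right _ _).trans ((min_le_right _ _).trans (min_le_left _ _)))
    ((min_le_right _ _).trans ((min_le_right _ _).trans (min_le_right _ _)))
  have hN := hN'.mono (min_le_left _ _)
  have ht := hN.t0
  have htε := hN.t1
  have habc' := hN.s
  have t1 := hN.mono ((min_le_left _ _).trans ((min_le_left _ _).trans (min_le_left _ _)) : _ ≤ ε1)
  have t2 := hN.mono ((min_le_left _ _).trans ((min_le_left _ _).trans (min_le_right _ _)) : _ ≤ ε2)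
  have t3 := hN.mono ((min_le_left _ _).trans ((min_le_right _ _).trans (min_le_left _ _)) : _ ≤ ε3)
  have t4 := hN.mono ((min_le_left _ _).trans ((min_le_right _ _).trans (min_le_right _ _)) : _ ≤ ε4)
  have t5 := hN.mono ((min_le_right _ _).trans (min_le_left _ _) : _ ≤ ε5)
  have t6 : t < 1 / 20 := htε.trans_le ((min_le_right _ _).trans (min_le_right _ _))
  have M1 := N1 a' b' c' t t1
  have M2 := N2 a' b' c' t t2
  have M5 := N5 a' b' c' t t5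
  have M3 : {v : Fin 6 → ℝ | Sol a' b' c' t v ∧ v 1 < 1 ∧ 1 ≤ v 0 ∧ 1 ≤ v 2}.ncard = 3 := by
    rw [ncard_s23]
    exact N3 a' c' b' t t3.swap23
  have M4 : {v : Fin 6 → ℝ | Sol a' b' c' t v ∧ v 2 < 1 ∧ 1 ≤ v 0 ∧ 1 ≤ v 1}.ncard = 3 := by
    rw [ncard_s12, ncard_s23]
    exact N4 b' c' a' t t4.swap12.swap23
  have hsplit : {v : Fin 6 → ℝ | Sol a' b' c' t v} =
      {v : Fin 6 → ℝ | Sol a' b' c' t v ∧ 1 ≤ v 0 ∧ 1 ≤ v 1 ∧ 1 ≤ v 2} ∪
      ({v : Fin 6 → ℝ | Sol a' b' c' t v ∧ v 0 < 1 ∧ 1 ≤ v 1 ∧ 1 ≤ v 2} ∪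
      ({v : Fin 6 → ℝ | Sol a' b' c' t v ∧ v 1 < 1 ∧ 1 ≤ v 0 ∧ 1 ≤ v 2} ∪
      ({v : Fin 6 → ℝ | Sol a' b' c' t v ∧ v 2 < 1 ∧ 1 ≤ v 0 ∧ 1 ≤ v 1} ∪
      {v : Fin 6 → ℝ | Sol a' b' c' t v ∧ v 0 < 1 ∧ v 1 < 1 ∧ v 2 < 1}))) := by
    ext v
    constructor
    · intro h
      have h' : Sol a' b' c' t v := h
      have B := bd hTI ha' hb' hc' habc' ht (by linarith) h'
      obtain ⟨s1, s2, s3⟩ := B.t1
      have q0 := sm0 hTI ha' hb' hc' habc' ht (by linarith) h'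
      have q1 := sm1 hTI ha' hb' hc' habc' ht (by linarith) h'
      have q2 := sm2 hTI ha' hb' hc' habc' ht (by linarith) h'
      rcases lt_or_ge (v 0) 1 with h0 | h0 <;> rcases lt_or_ge (v 1) 1 with h1 | h1 <;>
        rcases lt_or_ge (v 2) 1 with h2 | h2
      · exact Or.inr (Or.inr (Or.inr (Or.inr ⟨h, h0, h1, h2⟩)))
      · exfalso
        linarith [q0 h0, q1 h1]
      · exfalso
        linarith [q0 h0, q2 h2]
      · exact Or.inr (Or.inl ⟨h, h0, h1, h2⟩)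
      · exfalso
        linarith [q1 h1, q2 h2]
      · exact Or.inr (Or.inr (Or.inl ⟨h, h1, h0, h2⟩))
      · exact Or.inr (Or.inr (Or.inr (Or.inl ⟨h, h2, h0, h1⟩)))
      · exact Or.inl ⟨h, h0, h1, h2⟩
    · rintro (⟨h, -⟩ | ⟨h, -⟩ | ⟨h, -⟩ | ⟨h, -⟩ | ⟨h, -⟩) <;> exact h
  have F1 := fin_of M1 (by norm_num)
  have F2 := fin_of M2 (by norm_num)
  have F3 := fin_of M3 (by norm_num)
  have F4 := fin_of M4 (by norm_num)
  have F5 := fin_of M5 (by norm_num)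
  rw [hsplit, Set.ncard_union_eq _ F1 (F2.union (F3.union (F4.union F5))),
    Set.ncard_union_eq _ F2 (F3.union (F4.union F5)), Set.ncard_union_eq _ F3 (F4.union F5),
    Set.ncard_union_eq _ F4 F5, M1, M2, M3, M4, M5]
  · rw [Set.disjoint_left]
    rintro v ⟨-, h1, h2, h3⟩ ⟨-, k1, k2, k3⟩
    linarith
  · rw [Set.disjoint_left]
    rintro v ⟨-, h1, h2, h3⟩ (⟨-, k1, k2, k3⟩ | ⟨-, k1, k2, k3⟩) <;> linarith
  · rw [Set.disjoint_left]
    rintro v ⟨-, h1, h2, h3⟩ (⟨-, k1, k2, k3⟩ | ⟨-, k1, k2, k3⟩ | ⟨-, k1, k2, k3⟩) <;> linarith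
  · rw [Set.disjoint_left]
    rintro v ⟨-, h1, h2, h3⟩ (⟨-, k1, k2, k3⟩ | ⟨-, k1, k2, k3⟩ | ⟨-, k1, k2, k3⟩ |
      ⟨-, k1, k2, k3⟩) <;> linarith


/-- Twenty solutions if `t` is small, uniformly for `a, b, c ≥ δ`. -/
theorem uniform (hTI : TI) {δ : ℝ} (hδ : 0 < δ) :
    ∃ ε > 0, ∀ a b c t : ℝ, δ ≤ a → δ ≤ b → δ ≤ c → a + b + c = 1 → 0 < t → t < ε →
      {v : Fin 6 → ℝ | Sol a b c t v}.ncard = 20 := by
  have hK : IsCompact (Set.Icc ((δ, δ, δ) : ℝ × ℝ × ℝ) (1, 1, 1) ∩ {p | p.1 + p.2.1 + p.2.2 = 1}) :=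
    isCompact_Icc.inter_right (isClosed_eq (by fun_prop) continuous_const)
  have hev := hK.eventually_forall_of_forall_eventually (x₀ := (0 : ℝ))
    (P := fun t p ↦ 0 < t → p.1 + p.2.1 + p.2.2 = 1 →
      {v : Fin 6 → ℝ | Sol p.1 p.2.1 p.2.2 t v}.ncard = 20) (by
    rintro ⟨a, b, c⟩ ⟨⟨⟨h1, h2, h3⟩, -⟩, hs⟩
    simp only at h1 h2 h3
    have hs' : a + b + c = 1 := hs
    obtain ⟨ε, hε, H⟩ := total hTI (hδ.trans_le h1) (hδ.trans_le h2) (hδ.trans_le h3) hs'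
    rw [Metric.eventually_nhds_iff]
    refine ⟨ε, hε, ?_⟩
    rintro ⟨t, a', b', c'⟩ hd ht hs''
    rw [Prod.dist_eq, Prod.dist_eq, Prod.dist_eq, max_lt_iff, max_lt_iff, max_lt_iff] at hd
    simp only [Real.dist_eq, sub_zero] at hd ht hs''
    obtain ⟨d1, d2, d3, d4⟩ := hd
    refine H a' b' c' t ⟨d2, d3, d4, ht, ?_, hs''⟩
    rwa [abs_of_pos ht] at d1)
  obtain ⟨ε, hε, H⟩ := Metric.eventually_nhds_iff.1 hev
  refine ⟨ε, hε, fun a b c t ha hb hc hs ht htε ↦ ?_⟩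
  refine H (y := t) (by rw [Real.dist_eq, sub_zero, abs_of_pos ht]; exact htε) (a, b, c)
    ⟨⟨⟨ha, hb, hc⟩, ?_, ?_, ?_⟩, hs⟩ ht hs
  · show a ≤ 1
    linarith
  · show b ≤ 1
    linarith
  · show c ≤ 1
    linarith

end Pool.Agent.Helper83.EINU
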